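import Pool.Agent.U693.AF.Place

/-!
# Tate-Shafarevich groups of ALL forms of the powers of a positive proportion of all odd hyperelliptic
# Jacobians, over ALL the fields between `k(t)` and the members of an infinite class of 2-extensions

Let `g ≥ 1`, let `k` be a finite field of characteristic larger than `2 g + 1` and `K = k(t)`. Every curve
of genus `g` over `K` with a map of degree two to the projective line and a rational Weierstrass point has
an equation `y ^ 2 = f(x)`, where `f` is a monic polynomial of degree `2 g + 1` over `k[t]` without term of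
degree `2 g`, such that there is no irreducible `P` with `P ^ (2 (2 g + 1 - j)) ∣ f_j` for all `j`; its
height is the least `N` with `deg f_j ≤ N (2 g + 1 - j)` for all `j`. For `g = 1` these are all elliptic
curves over `K`. Let `J` be the Jacobian of the curve.

For `f` and a finite set `S` of primes of `k[t]` let `C(f, S)` be the class of all the finite Galois
extensions `M` of `K` of 2-power degree in which all `Q ∈ S` split completely and in which only such primes
`P` of `k[t]` are ramified modulo which `f` is irreducible (there is no condition at infinity).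

Theorem. Let `M₀` be any finite Galois extension of `K` of 2-power degree. There are a finite set `S` of
primes and a constant `c > 0` such that for all large `N` at least `c` times the number of ALL the curves of
genus `g` over `K` of height at most `N` (with a rational Weierstrass point) have the following properties:

* `M₀` is in the class `C(f, S)`, the class is closed under composita, and there is an infinite set `Y` of
  primes such that all the `K(√D)`, `D` a product of an even number of different elements of `Y`, are in it;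
* for ALL `M` in the class, ALL fields `L` between `K` and `M` (Galois over `K` or not), ALL `n` and ALL
  homomorphisms `ρ : Gal(L^sep / L) → GL_n(ℤ)` which are trivial on `Gal(L^sep / M)` the abelian variety
  `A_ρ` over `L` of dimension `g n`, the form of `J ^ n` with the action `σ * P = ρ(σ) σ(P)`, has the
  following property: multiplication by two is bijective on `A_ρ(L)`, and every class of 2-power order in
  `H ^ 1 (L, A_ρ)` which is zero over the completions of `L` at the places which are not over infinity is
  zero; so `Ш(A_ρ / L)[2 ^ ∞] = 0`.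

By the theorem of Tate, Milne, Kato and Trihan (it is enough to know that ONE primary part of `Ш` is
finite), listed as known in the problem and not formalized, `Ш(A_ρ / L)` is finite for all these `L` and
`A_ρ`; so the assertion of Q1 holds, for a positive proportion of all `J`, for all the abelian varieties
`A_ρ` over `K` which are split by a member of the class and for all the finite Galois extensions `L` of `K`
contained in a member, and with the function field `L` in the place of `K` also for forms of `J ^ n` which
are not defined over `K`.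

What is new. For `L = K` it is my `MP_1d384c_nt.AllFormsOfJacobianPowers`; the Jacobians `J` themselves
(`n = 1`, `ρ = 1`) over the members `L = M` of the class are treated in the starting result
`MP_ff7320_nt.UniformOverTwoExtensions` (project TW, helper874), whose theorem over `M` is used. New are the
fields `L` between `K` and `M` and all the forms of all powers over them.
-/

set_option autoImplicit false
set_option linter.all false

namespace Pool.Agent.Results.MP_72e2e6_nt.AllFormsOverSubfields

open Polynomial Filter IsDedekindDomain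
open Pool.Agent.Y160.SE (Jac jm)
open Pool.Agent.N874.Jac (J mapJ)
open scoped Classical

/-- `y ^ 2 = f(x)` is a minimal equation of a curve of genus `g` with a rational Weierstrass point
over `K = k(t)`, of height at most `N`. -/
structure IsCurve {k : Type} [Field k] (K : Type) [Field K] [Algebra k[X] K] (g N : ℕ)
    (f : k[X][X]) : Prop where
  monic : f.Monic
  degree : f.natDegree = 2 * g + 1
  trace : f.coeff (2 * g) = 0
  height : ∀ j ≤ 2 * g, (f.coeff j).natDegree ≤ N * (2 * g + 1 - j)
  smooth : (f.map (algebraMap k[X] K)).Separable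
  minimal : ∀ P : k[X], Irreducible P →
    ¬ ∀ j < 2 * g + 1, P ^ (2 * (2 * g + 1 - j)) ∣ f.coeff j

/-- The curves of genus `g` over `K = k(t)` of height at most `N`. -/
def Curves (k : Type) [Field k] (K : Type) [Field K] [Algebra k[X] K] (g N : ℕ) : Set k[X][X] :=
  {f | IsCurve K g N f}

section forms

/-- The absolute Galois group of `L`, with the Krull topology. -/
abbrev GS (L : Type) [Field L] : Type := SeparableClosure L ≃ₐ[L] SeparableClosure L

variable {L : Type} [Field L] (F : L[X]) {n : ℕ}

/-- The group `J(E) ^ n`, written additively. Here `J(E)` is the Picard group of the affine curve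
`y ^ 2 = F(x)` over `E`. -/
def Pts (n : ℕ) (E : Type) [Field E] [Algebra L E] : Type := Fin n → Additive (J F E)

/-- The group law. -/
noncomputable instance (n : ℕ) (E : Type) [Field E] [Algebra L E] : AddCommGroup (Pts F n E) :=
  inferInstanceAs (AddCommGroup (Fin n → Additive (J F E)))

/-- The map `J(E) ^ n → J(E') ^ n`, `P ↦ m (φ P)`, for a homomorphism `φ` of fields and an integral
matrix `m`: first `φ` is applied to the coordinates, then the matrix. -/
noncomputable def move (m : Matrix (Fin n) (Fin n) ℤ) {E E' : Type} [Field E] [Field E']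
    [Algebra L E] [Algebra L E'] (φ : E →ₐ[L] E') (P : Pts F n E) : Pts F n E' :=
  fun i => ∑ j, m i j • (mapJ F φ).toAdditive (P j)

/-- Functions on the absolute Galois group with values in `J(L^sep) ^ n`. -/
abbrev Cochain (n : ℕ) : Type := GS L → Pts F n (SeparableClosure L)

variable (ρ : GS L →* Matrix.GeneralLinearGroup (Fin n) ℤ)

/-- The action of the Galois group on `A_ρ(L^sep) = J(L^sep) ^ n`: `σ * P = ρ(σ) σ(P)`. -/
noncomputable def act (σ : GS L) (P : Pts F n (SeparableClosure L)) :
    Pts F n (SeparableClosure L) := move F (ρ σ).1 σ.toAlgHom P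

/-- `c` is a continuous cocycle of the absolute Galois group with values in `A_ρ(L^sep)`. -/
def IsCocycle (c : Cochain F n) : Prop :=
  IsLocallyConstant c ∧ ∀ σ τ, c (σ * τ) = c σ + act F ρ σ (c τ)

/-- `c` is a coboundary. -/
def IsCoboundary (c : Cochain F n) : Prop := ∃ P, ∀ σ, c σ = act F ρ σ P - P

/-- For every embedding `ι` of the separable closures the restriction of `c` to the absolute Galois
group of the extension `E` of `L`, with values in `A_ρ(E^sep) = J(E^sep) ^ n`, is a coboundary. An
automorphism `τ` over `E` acts by `P ↦ ρ(σ) τ(P)`, where `σ` is the restriction of `τ`. -/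
def LocallyTrivial (E : Type) [Field E] [Algebra L E] (c : Cochain F n) : Prop :=
  ∀ ι : SeparableClosure L →ₐ[L] SeparableClosure E, ∃ P : Pts F n (SeparableClosure E),
    ∀ (τ : GS E) (σ : GS L), (∀ x, τ (ι x) = ι (σ x)) →
      move F 1 ι (c σ) = move F (ρ σ).1 (τ.toAlgHom.restrictScalars L) P - P

/-- `P` is in `A_ρ(L)`. -/
def IsPoint (P : Pts F n (SeparableClosure L)) : Prop := ∀ σ : GS L, act F ρ σ P = P

variable (R : Type) [CommRing R] [IsDedekindDomain R] [Algebra R L] [IsFractionRing R L]

/-- The class of `c` is zero over the completions of `L` at all maximal ideals of `R`. -/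
def TrivialAtPrimes (c : Cochain F n) : Prop :=
  ∀ v : HeightOneSpectrum R, LocallyTrivial F ρ (v.adicCompletion L) c

/-- Multiplication by two is bijective on `A_ρ(L)`, and every class of 2-power order in
`H ^ 1 (L, A_ρ)` which is zero over the completions of `L` at all maximal ideals of `R` is zero. -/
structure NoTwoPart : Prop where
  injective : ∀ P, IsPoint F ρ P → 2 • P = 0 → P = 0
  surjective : ∀ P, IsPoint F ρ P → ∃ Q, IsPoint F ρ Q ∧ 2 • Q = P
  sha : ∀ (c : Cochain F n) (m : ℕ), IsCocycle F ρ c → TrivialAtPrimes F ρ R c →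
    IsCoboundary F ρ (fun σ => 2 ^ m • c σ) → IsCoboundary F ρ c

end forms

/-- `f` is irreducible modulo `P`. -/
def IrreducibleMod {k : Type} [Field k] (f : k[X][X]) (P : k[X]) : Prop :=
  Irreducible (f.map (Ideal.Quotient.mk (Ideal.span {P})))

/-- `P` is unramified in the extension `R` of `k[t]`. -/
def Unramified {k : Type} [Field k] (R : Type) [CommRing R] [Algebra k[X] R] (P : k[X]) : Prop :=
  ∀ 𝔭 : Ideal R, 𝔭.IsPrime → algebraMap k[X] R P ∉ 𝔭 ^ 2

/-- `Q` splits completely in the extension `R` of `k[t]`: it is unramified, and every element of `R` is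
congruent to a polynomial modulo every prime over `Q`. -/
def SplitsCompletely {k : Type} [Field k] (R : Type) [CommRing R] [Algebra k[X] R] (Q : k[X]) :
    Prop :=
  Unramified R Q ∧ ∀ 𝔭 : Ideal R, 𝔭.IsPrime → algebraMap k[X] R Q ∈ 𝔭 →
    ∀ x : R, ∃ c : k[X], x - algebraMap k[X] R c ∈ 𝔭

/-- The class `C(f, S)`: the finite Galois extensions `M` of `K = k(t)` of 2-power degree in which all
`Q ∈ S` split completely and in which only such primes `P` of `k[t]` are ramified modulo which `f` is
irreducible. -/
structure InClass {k : Type} [Field k] (K : Type) [Field K] [Algebra k[X] K] (S : Finset k[X])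
    (f : k[X][X]) (M : Type) [Field M] [Algebra K M] [Algebra k[X] M] : Prop where
  finite : FiniteDimensional K M
  galois : IsGalois K M
  degree : ∃ n : ℕ, Module.finrank K M = 2 ^ n
  split : ∀ Q ∈ S, SplitsCompletely (integralClosure k[X] M) Q
  ramified : ∀ P : k[X], Irreducible P → Unramified (integralClosure k[X] M) P ∨ IrreducibleMod f P

/-- The field `N` is generated by the images of `M₁` and `M₂`. -/
def IsCompositum (M₁ M₂ N : Type) [Field M₁] [Field M₂] [Field N] [Algebra M₁ N]
    [Algebra M₂ N] : Prop :=
  ∀ F : Subfield N, (∀ x : M₁, algebraMap M₁ N x ∈ F) → (∀ x : M₂, algebraMap M₂ N x ∈ F) → F = ⊤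

/-- The field `M` is generated by `r` over `K`. -/
def IsGeneratedBy (K : Type) {M : Type} [Field K] [Field M] [Algebra K M] (r : M) : Prop :=
  ∀ F : Subfield M, (∀ x : K, algebraMap K M x ∈ F) → r ∈ F → F = ⊤

section properties

variable {k : Type} [Field k] (K : Type) [Field K] [Algebra k[X] K] (S : Finset k[X]) (f : k[X][X])

/-- The class is closed under composita. -/
def ClosedUnderComposita : Prop :=
  ∀ (M₁ M₂ N : Type) [Field M₁] [Algebra K M₁] [Algebra k[X] M₁] [IsScalarTower k[X] K M₁]
    [Field M₂] [Algebra K M₂] [Algebra k[X] M₂] [IsScalarTower k[X] K M₂]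
    [Field N] [Algebra K N] [Algebra k[X] N] [IsScalarTower k[X] K N] [Algebra M₁ N]
    [IsScalarTower K M₁ N] [Algebra M₂ N] [IsScalarTower K M₂ N], IsCompositum M₁ M₂ N →
    InClass K S f M₁ → InClass K S f M₂ → InClass K S f N

/-- The extension `K(√D)` is in the class. -/
def QuadraticInClass (D : k[X]) : Prop :=
  ∀ (M : Type) [Field M] [Algebra K M] [Algebra k[X] M] [IsScalarTower k[X] K M] (r : M),
    r ^ 2 = algebraMap k[X] M D → IsGeneratedBy K r → InClass K S f M

/-- There are infinitely many primes such that the extensions by square roots of products of an even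
number of different ones are in the class. -/
def ManyQuadratic : Prop :=
  ∃ Y : Set k[X], Y.Infinite ∧ (∀ P ∈ Y, P.Monic ∧ Irreducible P) ∧
    ∀ A : Finset k[X], (A : Set k[X]) ⊆ Y → Even A.card → QuadraticInClass K S f (∏ P ∈ A, P)

/-- For all the members `M` of the class, ALL the fields `L` between `K` and `M`, all `n` and all
`ρ : Gal(L^sep / L) → GL_n(ℤ)` which are trivial on the automorphisms over the image of `M` in `L^sep` the
form `A_ρ` of `J ^ n` over `L` has no 2-part. Here `R` is the integral closure of `k[t]` in `L`. -/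
def AllForms : Prop :=
  ∀ (M : Type) [Field M] [Algebra K M] [Algebra k[X] M] [IsScalarTower k[X] K M],
    InClass K S f M → ∀ (L : Type) [Field L] [Algebra K L] [Algebra k[X] L]
    [IsScalarTower k[X] K L] [Algebra L M] [IsScalarTower K L M] (R : Type) [CommRing R]
    [IsDedekindDomain R] [Algebra R L] [IsFractionRing R L] [Algebra k[X] R]
    [IsScalarTower k[X] R L] [IsIntegralClosure R k[X] L]
    (ψ : M →ₐ[L] SeparableClosure L) (n : ℕ)
    (ρ : GS L →* Matrix.GeneralLinearGroup (Fin n) ℤ),
    (∀ σ : GS L, (∀ x : M, σ (ψ x) = ψ x) → ρ σ = 1) →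
    NoTwoPart (f.map (algebraMap k[X] L)) ρ R

end properties

/-- The property of the curve `y ^ 2 = f(x)`: the given extension `M₀` is in the class, the class is closed
under composita and contains infinitely many quadratic extensions, and all forms of the powers of `J` over
subfields of its members which are split by the members have no 2-part. -/
structure Good {k : Type} [Field k] (K : Type) [Field K] [Algebra k[X] K]
    (S : Finset k[X]) (M₀ : Type) [Field M₀] [Algebra K M₀] [Algebra k[X] M₀] (f : k[X][X]) :
    Prop where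
  base : InClass K S f M₀
  composita : ClosedUnderComposita K S f
  many : ManyQuadratic K S f
  forms : AllForms K S f

/-- The curves of genus `g` over `K` and height at most `N` with the property. -/
def GoodCurves (k : Type) [Field k] (K : Type) [Field K] [Algebra k[X] K]
    (S : Finset k[X]) (M₀ : Type) [Field M₀] [Algebra K M₀] [Algebra k[X] M₀] (g N : ℕ) :
    Set k[X][X] :=
  {f ∈ Curves k K g N | Good K S M₀ f}

theorem class_iff {k : Type} [Field k] {K : Type} [Field K] [Algebra k[X] K]
    [IsFractionRing k[X] K] {S : Finset k[X]} (hS : ∀ Q ∈ S, Irreducible Q)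
    {f : k[X][X]} {M : Type} [Field M] [Algebra K M] [Algebra k[X] M] [IsScalarTower k[X] K M] :
    InClass K S f M ↔ Pool.Agent.U693.FF.Cls k[X] K S (Pool.Agent.U693.FF.IrrMod f) M := by
  constructor
  · intro h
    refine ⟨h.finite, h.galois, h.degree, fun Q hQ 𝔭 h𝔭 hm => ?_, fun P hP hex => ?_⟩
    · exact ⟨(h.split Q hQ).1 𝔭 h𝔭, (h.split Q hQ).2 𝔭 h𝔭 hm⟩
    · obtain ⟨𝔭, h𝔭, h2⟩ := hex
      exact (h.ramified P hP).resolve_left fun h3 => h3 𝔭 h𝔭 h2
  · intro h
    refine ⟨h.finite, h.galois, h.degree, fun Q hQ => ⟨fun 𝔭 h𝔭 h2 => ?_, fun 𝔭 h𝔭 hm => ?_⟩,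
      fun P hP => ?_⟩
    · exact (h.split Q hQ 𝔭 h𝔭 (Ideal.pow_le_self two_ne_zero h2)).1 h2
    · exact (h.split Q hQ 𝔭 h𝔭 hm).2
    · by_cases h1 : Unramified (integralClosure k[X] M) P
      · exact Or.inl h1
      · right
        apply h.ram P hP
        unfold Unramified at h1
        push Not at h1
        exact h1

theorem mapJ_eq {K : Type} [Field K] (F : K[X]) {L L' : Type} [Field L] [Field L'] [Algebra K L]
    [Algebra K L'] (φ : L →ₐ[K] L') (x : Additive (J F L)) :
    (mapJ F φ).toAdditive x = jm 2 F φ x := Pool.Agent.N106.JB.ad_mapJ φ x.toMul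

theorem move_eq {K : Type} [Field K] (F : K[X]) {n : ℕ} (m : Matrix (Fin n) (Fin n) ℤ)
    {L L' : Type} [Field L] [Field L'] [Algebra K L] [Algebra K L'] (φ : L →ₐ[K] L')
    (P : Pts F n L) : move F m φ P =
      Pool.Agent.U693.AF.mt m (Pool.Agent.U693.AF.mp (jm 2 F φ) P) := by
  funext i
  show ∑ j, m i j • (mapJ F φ).toAdditive (P j) = ∑ j, m i j • jm 2 F φ (P j)
  exact Finset.sum_congr rfl fun j _ => congrArg (fun z => m i j • z) (mapJ_eq F φ (P j))

theorem act_eq {K : Type} [Field K] (F : K[X]) {n : ℕ}
    (ρ : GS K →* Matrix.GeneralLinearGroup (Fin n) ℤ) (σ : GS K)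
    (P : Pts F n (SeparableClosure K)) : act F ρ σ P = Pool.Agent.U693.AF.ta F ρ σ P :=
  move_eq F _ _ P

/-- The forms which are split by `M`. -/
theorem form_of {A L M : Type} [CommRing A] [IsDedekindDomain A] [Field L] [Algebra A L]
    [IsFractionRing A L] [Field M] [Algebra L M] [Algebra A M] [IsScalarTower A L M]
    [FiniteDimensional L M] [IsGalois L M] {m : ℕ} (hm : Module.finrank L M = 2 ^ m)
    (h2L : (2 : L) ≠ 0) {F : L[X]} (hF : F.Monic) (ho : Odd F.natDegree) (hs : F.Separable)
    (ψ : M →ₐ[L] SeparableClosure L) {n : ℕ} {ρ : GS L →* Matrix.GeneralLinearGroup (Fin n) ℤ}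
    (hρ : ∀ σ : GS L, (∀ x : M, σ (ψ x) = ψ x) → ρ σ = 1)
    (R : Type) [CommRing R] [IsDedekindDomain R]
    [Algebra R M] [IsFractionRing R M] [Algebra A R] [IsScalarTower A R M]
    [Algebra.IsIntegral A R] [Module.IsTorsionFree A R]
    (h : Pool.Agent.N874.Jac.UniquelyTwoDivisible (F.map (algebraMap L M)) ∧
      Pool.Agent.N874.Jac.ShaTwoTrivial (F.map (algebraMap L M)) R) :
    NoTwoPart F ρ A := by
  have h2M : (2 : M) ≠ 0 := by
    have h3 : algebraMap L M 2 ≠ 0 := by
      rw [Ne, map_eq_zero_iff _ (algebraMap L M).injective]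
      exact h2L
    rwa [map_ofNat] at h3
  have hg : Pool.Agent.Y160.SE.Good 2 (-1 : L) F := Pool.Agent.N106.JB.good2 h2L hF hs ho
  have hgM : Pool.Agent.Y160.SE.Good 2 (-1 : M) (F.map (algebraMap L M)) :=
    Pool.Agent.N106.JB.good2 h2M (hF.map _) hs.map (by rw [hF.natDegree_map]; exact ho)
  obtain ⟨ε, hε⟩ := Pool.Agent.U693.AF.exists_eps ψ
  have hρ' : ∀ σ : SeparableClosure M ≃ₐ[M] SeparableClosure M,
      ρ (Pool.Agent.U693.AF.dn ε σ) = 1 := fun σ => hρ _ (hε σ)
  obtain ⟨p1, p2⟩ := Pool.Agent.U693.AF.core_pts (F := F) hg hgM hρ' h.1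
  refine ⟨fun P hP => p1 P fun σ => (act_eq _ ρ σ P).symm.trans (hP σ), fun P hP => ?_,
    fun c m' hc hl hb => ?_⟩
  · obtain ⟨Q, hQ, hQP⟩ := p2 P fun σ => (act_eq _ ρ σ P).symm.trans (hP σ)
    exact ⟨Q, fun σ => (act_eq _ ρ σ Q).trans (hQ σ), hQP⟩
  have hc' : Pool.Agent.U693.AF.TCoc F ρ c :=
    ⟨hc.1, fun σ τ => (hc.2 σ τ).trans (congrArg (fun z => c σ + z) (act_eq _ ρ σ (c τ)))⟩
  have hb' : Pool.Agent.U693.AF.TCob F ρ (fun σ => 2 ^ m' • c σ) := by
    obtain ⟨P, hP⟩ := hb
    exact ⟨P, fun σ => (hP σ).trans (congrArg (fun z => z - P) (act_eq _ ρ σ P))⟩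
  have hl' : ∀ v : HeightOneSpectrum A,
      Pool.Agent.U693.AF.TLoc F ρ (v.adicCompletion L) c := by
    intro v ι
    obtain ⟨P, hP⟩ := hl v ι
    refine ⟨P, fun τ σ hx => ?_⟩
    have h3 := hP τ σ hx
    rw [move_eq, move_eq] at h3
    exact (Pool.Agent.U693.AF.mt_one _).symm.trans h3
  obtain ⟨T, hT⟩ := Pool.Agent.U693.AF.core (F := F) hm hg hgM hρ' (R := R)
    h.1 (fun c m h1 h2 h3 => h.2 c m h1 h2 h3)
    (Pl := fun E _ _ => Pool.Agent.U693.AF.TLoc F ρ E c)
    (fun w => by
      obtain ⟨v, j, hj⟩ :=
        Pool.Agent.U693.AF.exists_below (A := A) (K := L) (M := M) (R := R) w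
      exact ⟨v.adicCompletion L, inferInstance, inferInstance, hl' v, j, hj⟩)
    hc' (fun E _ _ hE => hE) (k := m') hb'
  exact ⟨T, fun σ => (hT σ).trans (congrArg (fun z => z - T) (act_eq _ ρ σ T).symm)⟩

/-- The integral closure in `M` of the integral closure `A` of `B` in `L` is the integral closure
of `B`. -/
theorem isIntegralClosure_tower {B A L M : Type} [CommRing B] [CommRing A] [Field L] [Field M]
    [Algebra B L] [Algebra A L] [Algebra B A] [IsScalarTower B A L] [IsIntegralClosure A B L]
    [Algebra L M] [Algebra B M] [Algebra A M] [IsScalarTower B A M] :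
    IsIntegralClosure (integralClosure A M) B M := by
  haveI : Algebra.IsIntegral B A := IsIntegralClosure.isIntegral_algebra B L
  refine ⟨Subtype.val_injective, fun {x} => ⟨fun hx => ?_, ?_⟩⟩
  · exact ⟨⟨x, hx.tower_top⟩, rfl⟩
  · rintro ⟨y, rfl⟩
    exact isIntegral_trans (R := B) (A := A) _ y.2

theorem good_of {k : Type} [Field k] [Finite k] (h2 : (2 : k) ≠ 0) {K : Type} [Field K]
    [Algebra k[X] K] [IsFractionRing k[X] K]
    {S : Finset k[X]} (hS : ∀ Q ∈ S, Irreducible Q)
    {M₀ : Type} [Field M₀] [Algebra K M₀] [Algebra k[X] M₀] [IsScalarTower k[X] K M₀] {f : k[X][X]}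
    (hf : f.Monic) (ho : Odd f.natDegree) (hs : (f.map (algebraMap k[X] K)).Separable)
    (h : Pool.Agent.U693.FF.Prp K ∅ S M₀ f) : Good K S M₀ f := by
  refine ⟨(class_iff hS).2 h.base, ?_, ?_, ?_⟩
  · intro M₁ M₂ N _ _ _ _ _ _ _ _ _ _ _ _ _ _ _ _ hg h1 h2
    exact (class_iff hS).2 (h.comp M₁ M₂ N hg ((class_iff hS).1 h1) ((class_iff hS).1 h2))
  · obtain ⟨Y, y1, y2, y3⟩ := h.many
    exact ⟨Y, y1, y2, fun A hA hev M _ _ _ _ r hr hg => (class_iff hS).2 (y3 A hA hev M r hr hg)⟩
  · intro M _ _ _ _ h1 L _ _ _ _ _ _ A _ _ _ _ _ _ _ ψ n ρ hρ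
    haveI := h1.finite
    haveI := h1.galois
    obtain ⟨m, hm⟩ := h1.degree
    haveI : FiniteDimensional L M := FiniteDimensional.right K L M
    haveI : FiniteDimensional K L := FiniteDimensional.left K L M
    haveI : IsGalois L M := IsGalois.tower_top_of_isGalois K L M
    haveI : Algebra.IsSeparable K L := Algebra.isSeparable_tower_bot_of_isSeparable K L M
    obtain ⟨m', -, hm'⟩ : ∃ m' ≤ m, Module.finrank L M = 2 ^ m' :=
      (Nat.dvd_prime_pow Nat.prime_two).1
        (hm ▸ ⟨Module.finrank K L, by rw [mul_comm]; exact (Module.finrank_mul_finrank K L M).symm⟩)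
    haveI : IsScalarTower k[X] L M := IsScalarTower.of_algebraMap_eq fun x => by
      rw [IsScalarTower.algebraMap_apply k[X] K M, IsScalarTower.algebraMap_apply k[X] K L,
        ← IsScalarTower.algebraMap_apply K L M]
    letI : Algebra A M := ((algebraMap L M).comp (algebraMap A L)).toAlgebra
    haveI : IsScalarTower A L M := IsScalarTower.of_algebraMap_eq fun _ => rfl
    haveI : IsScalarTower k[X] A M := IsScalarTower.of_algebraMap_eq fun x => by
      rw [IsScalarTower.algebraMap_apply k[X] L M, IsScalarTower.algebraMap_apply k[X] A L]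
      rfl
    haveI : IsDedekindDomain (integralClosure A M) := integralClosure.isDedekindDomain A L M
    haveI : IsFractionRing (integralClosure A M) M :=
      integralClosure.isFractionRing_of_finite_extension L M
    haveI : IsIntegralClosure (integralClosure A M) k[X] M :=
      isIntegralClosure_tower (B := k[X]) (A := A) (L := L) (M := M)
    haveI : Module.IsTorsionFree A M := by
      rw [Module.isTorsionFree_iff_algebraMap_injective, IsScalarTower.algebraMap_eq A L M]
      exact (algebraMap L M).injective.comp (IsFractionRing.injective A L)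
    haveI : Module.IsTorsionFree A (integralClosure A M) := inferInstance
    have hz := h.zero M (integralClosure A M) ((class_iff hS).1 h1)
    have hmap : f.map (algebraMap k[X] M) = (f.map (algebraMap k[X] L)).map (algebraMap L M) := by
      rw [Polynomial.map_map, ← IsScalarTower.algebraMap_eq k[X] L M]
    rw [hmap] at hz
    have hmapL : f.map (algebraMap k[X] L) = (f.map (algebraMap k[X] K)).map (algebraMap K L) := by
      rw [Polynomial.map_map, ← IsScalarTower.algebraMap_eq k[X] K L]
    have h2L : (2 : L) ≠ 0 := by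
      have h3 : ((algebraMap k[X] L).comp C) 2 ≠ 0 := by
        rw [Ne, map_eq_zero]
        exact h2
      rwa [map_ofNat] at h3
    exact form_of hm' h2L (hf.map _) (by rw [hf.natDegree_map]; exact ho)
      (by rw [hmapL]; exact hs.map) ψ hρ (integralClosure A M) hz

/-- For every `g ≥ 1`, every finite field `k` of characteristic larger than `2 g + 1` and every finite
Galois extension `M₀` of `K = k(t)` of 2-power degree there are a finite set `S` of primes of `k[t]` and a
positive constant `c` such that for all large `N` at least `c` times the number of all the curves of genus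
`g` over `K` of height at most `N` with a rational Weierstrass point are good: the class of the finite
Galois extensions `M` of `K` of 2-power degree in which all `Q ∈ S` split completely and in which only
primes are ramified modulo which `f` is irreducible contains `M₀` and all `K(√D)`, `D` a product of an even
number of different elements of an infinite set of primes, it is closed under composita, and for ALL `M`
in the class, ALL fields `L` between `K` and `M`, ALL `n` and ALL `ρ : Gal(L^sep / L) → GL_n(ℤ)` trivial on
`Gal(L^sep / M)` the form `A_ρ` of `J ^ n` over `L` has no 2-part: multiplication by two is bijective on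
`A_ρ(L)` and the 2-primary part of the Tate-Shafarevich group of `A_ρ` over `L` is zero. -/
theorem result (g : ℕ) (hg : 1 ≤ g) (k : Type) [Field k] [Finite k]
    (hp : ((2 * g + 1).factorial : k) ≠ 0) (K : Type) [Field K] [Algebra k[X] K]
    [IsFractionRing k[X] K]
    (M₀ : Type) [Field M₀] [Algebra K M₀] [Algebra k[X] M₀] [IsScalarTower k[X] K M₀]
    [FiniteDimensional K M₀] [IsGalois K M₀] (n : ℕ) (hn : Module.finrank K M₀ = 2 ^ n) :
    (∀ N : ℕ, (Curves k K g N).Finite) ∧
    ∃ S : Finset k[X], (∀ Q ∈ S, Q.Monic ∧ Irreducible Q) ∧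
      ∃ c : ℝ, 0 < c ∧ ∀ᶠ N : ℕ in atTop, 0 < (Curves k K g N).ncard ∧
        c * ((Curves k K g N).ncard : ℝ) ≤ ((GoodCurves k K S M₀ g N).ncard : ℝ) := by
  have h2 : (2 : k) ≠ 0 := by
    intro h0
    apply hp
    obtain ⟨d, hd⟩ : 2 ∣ (2 * g + 1).factorial := Nat.dvd_factorial (by norm_num) (by omega)
    rw [hd, Nat.cast_mul, Nat.cast_ofNat, h0, zero_mul]
  have hsub : ∀ N, Curves k K g N ⊆ {f : k[X][X] | Pool.Agent.N352.PJ.Ht g N f} :=
    fun N f hf => ⟨hf.monic, hf.degree, hf.trace, hf.height⟩
  have hfin : ∀ N, (Curves k K g N).Finite := fun N =>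
    (Pool.Agent.N415.PJMAIN.ht_card (k := k) g N).1.subset (hsub N)
  refine ⟨hfin, ?_⟩
  obtain ⟨S, hS, hdis, c, hc, N₀, hN₀⟩ := Pool.Agent.U693.FF.finalF k hg hp K ∅ (by simp) M₀ hn
  refine ⟨S, hS, c, hc, ?_⟩
  filter_upwards [eventually_ge_atTop N₀] with N hN
  obtain ⟨hHt, hle⟩ := hN₀ N hN
  have hsub2 : {f : k[X][X] | Pool.Agent.N352.PJ.Ht g N f ∧ Pool.Agent.N352.PJ.Mini g f ∧
      (f.map (algebraMap k[X] K)).Separable ∧ Pool.Agent.U693.FF.Prp K ∅ S M₀ f} ⊆
      GoodCurves k K S M₀ g N := by
    rintro f ⟨a1, a2, a3, a4⟩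
    exact ⟨⟨a1.mon, a1.deg, a1.tr, a1.ht, a3, a2⟩, good_of h2 (fun Q hQ => (hS Q hQ).2) a1.mon
      (by rw [a1.deg]; exact odd_two_mul_add_one g) a3 a4⟩
  have hfin2 : (GoodCurves k K S M₀ g N).Finite := (hfin N).subset fun f hf => hf.1
  have h1 := Set.ncard_le_ncard hsub2 hfin2
  have h2' : c * ({f : k[X][X] | Pool.Agent.N352.PJ.Ht g N f}.ncard : ℝ) ≤
      ((GoodCurves k K S M₀ g N).ncard : ℝ) := hle.trans (by exact_mod_cast h1)
  have hne : 0 < {f : k[X][X] | Pool.Agent.N352.PJ.Ht g N f}.ncard := by
    rw [Set.ncard_pos hHt]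
    refine ⟨X ^ (2 * g + 1), monic_X_pow _, natDegree_X_pow _, ?_, fun j hj => ?_⟩
    · rw [coeff_X_pow, if_neg (by omega)]
    · rw [coeff_X_pow, if_neg (by omega), natDegree_zero]
      exact Nat.zero_le _
  have h3 : 0 < ((GoodCurves k K S M₀ g N).ncard : ℝ) := by
    refine lt_of_lt_of_le ?_ h2'
    exact mul_pos hc (by exact_mod_cast hne)
  refine ⟨?_, ?_⟩
  · have h4 := Set.ncard_le_ncard (s := GoodCurves k K S M₀ g N) (t := Curves k K g N)
      (fun f hf => hf.1) (hfin N)
    have h5 : 0 < (GoodCurves k K S M₀ g N).ncard := by exact_mod_cast h3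
    omega
  · refine le_trans ?_ h2'
    have h4 := Set.ncard_le_ncard (hsub N) hHt
    exact mul_le_mul_of_nonneg_left (by exact_mod_cast h4) hc.le

end Pool.Agent.Results.MP_72e2e6_nt.AllFormsOverSubfields
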