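import Pool.Agent.U407.PF8
import Pool.Agent.U407.CE2

/-!
# Ranks and Tate–Shafarevich groups of Jacobians over all constant extensions and Artin–Schreier towers

Let `k` be the field with `q = p^s` elements and `K = k(t)`, `a ≥ 2` and `b ≥ 1` coprime with
`b (a - 1)` dividing `p - 1`. We consider the family of all the curves over `K`

  `(y^p - y) x = f(x, t)`,  `f = u Φ(t) + w x^a + ∑_{(i, j) ∈ D} φ_{i, j} x^i t^j`

with arbitrary `u, w ≠ 0`, `Φ = t^b + Φ_{b-1} t^{b-1} + ⋯ + Φ_0` and `φ_{i, j}` in `k`; `D` is a fixed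
finite set of exponents with `i ≥ 1` and `b i + a j < a b`. Let `J` be the Jacobian. For a finite
extension `k'` of `k`, of degree `n`, and polynomials `h_1, …, h_r` over `k'` with
`a deg h_l ≤ b (a - 1)` let `F` be the function field of the curve `z_l^p - z_l = h_l(t)` over `k'`.
So `F` runs through all the composita of constant extensions and elementary abelian `p`-extensions of
`K`, unramified outside infinity and with bounded conductor. The function

  `L(T) = exp (∑_{m ≥ 1} ((Q^m - 1) S_m - N_m) T^m / m)`,  `Q = q^n = #k'`,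

`N_m` and `S_m` being the numbers of the points over the field with `Q^m` elements of the affine
surface (`x ≠ 0`) and of the affine curve given by these equations, is the `L`-function of `J` over
`F`, up to the Euler factors at infinity; the central point is `T = 1 / Q`. Let `ρ` be the order of
vanishing there.

* For every member with squarefree `Φ` and every `F`:
  `ρ ≤ p^r (p - 1) (∑_{P | Φ} gcd(n, deg P) - 1)`, where `P` runs through the irreducible factors
  over `k`, and the equality holds if and only if the `p`-adic valuation of the leading coefficient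
  is `-n s p^r (p - 1) hodge`.
* Normal order of the growth: for every `n` and `λ > 0`, outside a proportion
  `V_n / λ² + 2 / q` of the family, `ρ ≤ p^r (p - 1) (E_n + λ - 1)` for all `F` with `[k' : k] = n`;
  here `E_n = ∑_{d ≤ b} gcd(n, d) / d` and `V_n = ∑_{d ≤ b} gcd(n, d)² / d`.
* Average: the average of `ρ` over the members with squarefree `Φ`, where `F` may vary with the
  member, is at most `p^r (p - 1) (E_n / (1 - 2 / q) - 1)`; `E_n ≤ τ(n) (1 + log b)`.
* For a proportion of at least `1 / b - 1 / q` of all the members, `L(1/Q) ≠ 0` for ALL `F` with `n`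
  prime to `b`. So (Tate, Milne) over all these fields `F` at once the rank of `J` is zero, the
  conjecture of Birch and Swinnerton-Dyer holds and the Tate–Shafarevich group is finite.

The case `n = 1` of the first statement is the bound behind `MP_1d384c_nt.SimplePole`, built on the
starting library (`Pool.Agent.N867.AS`).
-/

set_option autoImplicit false

namespace Pool.Agent.Results.MP_72e2e6_nt.ConstantExtensionStatistics

open Polynomial

/-- The sum of `1 - (b i + a j) / M`, `M = b (a - 1)`, over all pairs `(i, j)` of integers with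
`i ≥ 0`, `j > 0` and `b i + a j < M`. -/
noncomputable def hodge (a b : ℕ) : ℚ :=
  ∑ i ∈ Finset.range (b * (a - 1)), ∑ j ∈ Finset.range (b * (a - 1)),
    if 0 < j ∧ b * i + a * j < b * (a - 1) then
      1 - ((b * i + a * j : ℕ) : ℚ) / ((b * (a - 1) : ℕ) : ℚ) else 0

/-- The members of the family: `(u, w)`, the coefficients `Φ_0, …, Φ_{b-1}` and the coefficients `φ`
at the exponents in `D`. -/
abbrev Member (k : Type) [Field k] (b : ℕ) (D : Finset (ℕ × ℕ)) : Type :=
  (kˣ × kˣ) × (Fin b → k) × (D → k)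

/-- `Φ = X^b + ∑_{i < b} Φ_i X^i`. -/
noncomputable def residue {k : Type} [Field k] {b : ℕ} {D : Finset (ℕ × ℕ)} (m : Member k b D) :
    k[X] :=
  X ^ b + ∑ i : Fin b, C (m.2.1 i) * X ^ (i : ℕ)

/-- `f = u Φ(t) + w x^a + ∑_{(i, j) ∈ D} φ_{i, j} x^i t^j` (outer variable `x`, inner
variable `t`). -/
noncomputable def poly {k : Type} [Field k] (a : ℕ) {b : ℕ} {D : Finset (ℕ × ℕ)}
    (m : Member k b D) : k[X][X] :=
  C (C (m.1.1 : k) * residue m) + monomial a (C (m.1.2 : k)) +
    ∑ d : D, monomial d.1.1 (monomial d.1.2 (m.2.2 d))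

/-- The polynomial `f`, considered as a polynomial over the extension `k'`. -/
noncomputable def baseChange {k : Type} [Field k] (k' : Type) [Field k'] [Algebra k k'] (f : k[X][X]) :
    k'[X][X] :=
  f.map (mapRingHom (algebraMap k k'))

/-- The sum of `gcd(n, deg P)` over the irreducible factors `P` of `Φ`. -/
noncomputable def growth {k : Type} [Field k] (n : ℕ) (Φ : k[X]) : ℕ :=
  ((UniqueFactorizationMonoid.factors Φ).map fun P => Nat.gcd n P.natDegree).sum

/-- `E_n`, the sum of `gcd(n, d) / d` over `1 ≤ d ≤ b`. -/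
noncomputable def meanGrowth (n b : ℕ) : ℚ := ∑ d ∈ Finset.Icc 1 b, (Nat.gcd n d : ℚ) / d

/-- `V_n`, the sum of `gcd(n, d)² / d` over `1 ≤ d ≤ b`. -/
noncomputable def varGrowth (n b : ℕ) : ℚ := ∑ d ∈ Finset.Icc 1 b, (Nat.gcd n d : ℚ) ^ 2 / d

/-- The proportion of the members of the family with a property. -/
noncomputable def proportion {k : Type} [Field k] {b : ℕ} {D : Finset (ℕ × ℕ)}
    (Q : Member k b D → Prop) : ℚ :=
  (Nat.card {m // Q m} : ℚ) / Nat.card (Member k b D)

/-- The average of a function over the members of the family with a property. -/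
noncomputable def average {k : Type} [Field k] {b : ℕ} {D : Finset (ℕ × ℕ)}
    (Q : Member k b D → Prop) (F : Member k b D → ℚ) : ℚ :=
  (∑ᶠ m : {m // Q m}, F m.1) / Nat.card {m // Q m}

/-- The value `h(t)` at an element `t` of an algebraic closure of `k`. -/
noncomputable def baseValue {k : Type} [Field k] (h : k[X]) (t : AlgebraicClosure k) :
    AlgebraicClosure k :=
  h.eval₂ (algebraMap k (AlgebraicClosure k)) t

/-- The value `f(x, t)` at a point with coordinates in an algebraic closure of `k`. -/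
noncomputable def value {k : Type} [Field k] (f : k[X][X]) (t x : AlgebraicClosure k) :
    AlgebraicClosure k :=
  f.eval₂ (eval₂RingHom (algebraMap k (AlgebraicClosure k)) t) x

/-- The number of `(t, z_1, …, z_r)` with coordinates in `F_Q = {z : z^Q = z}` such that
`z_l^p - z_l = h_l(t)` for all `l`. -/
noncomputable def basePoints {k : Type} [Field k] (p : ℕ) {r : ℕ} (h : Fin r → k[X]) (Q : ℕ) :
    ℕ :=
  Nat.card {v : AlgebraicClosure k × (Fin r → AlgebraicClosure k) //
    v.1 ^ Q = v.1 ∧ (∀ l, v.2 l ^ Q = v.2 l) ∧ ∀ l, v.2 l ^ p - v.2 l = baseValue (h l) v.1}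

/-- The number of `(t, x, y, z_1, …, z_r)` with coordinates in `F_Q` such that `x ≠ 0`,
`(y^p - y) x = f(x, t)` and `z_l^p - z_l = h_l(t)` for all `l`. -/
noncomputable def points {k : Type} [Field k] (p : ℕ) {r : ℕ} (f : k[X][X])
    (h : Fin r → k[X]) (Q : ℕ) : ℕ :=
  Nat.card {v : AlgebraicClosure k × AlgebraicClosure k × AlgebraicClosure k ×
      (Fin r → AlgebraicClosure k) //
    v.1 ^ Q = v.1 ∧ v.2.1 ^ Q = v.2.1 ∧ v.2.1 ≠ 0 ∧ v.2.2.1 ^ Q = v.2.2.1 ∧
    (∀ l, v.2.2.2 l ^ Q = v.2.2.2 l) ∧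
    (v.2.2.1 ^ p - v.2.2.1) * v.2.1 = value f v.1 v.2.1 ∧
    ∀ l, v.2.2.2 l ^ p - v.2.2.2 l = baseValue (h l) v.1}

/-- The power series `∑_{m ≥ 1} ((q^m - 1) S_m - N_m) T^m`, where `q = #k`,
`S_m = basePoints p h (q^m)` and `N_m = points p f h (q^m)`. -/
noncomputable def traces {k : Type} [Field k] [Fintype k] (p : ℕ) {r : ℕ} (f : k[X][X])
    (h : Fin r → k[X]) : PowerSeries ℚ :=
  PowerSeries.mk fun n => if n = 0 then 0 else
    (((Fintype.card k : ℚ) ^ n - 1) * (basePoints p h (Fintype.card k ^ n) : ℚ) -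
      (points p f h (Fintype.card k ^ n) : ℚ))

/-- `L(T) = exp (∑_{m ≥ 1} ((q^m - 1) S_m - N_m) T^m / m)`: that is, `L(0) = 1` and
`T L' = L ∑_{m ≥ 1} ((q^m - 1) S_m - N_m) T^m`. -/
def IsLFunction {k : Type} [Field k] [Fintype k] (p : ℕ) {r : ℕ} (f : k[X][X])
    (h : Fin r → k[X]) (L : ℚ[X]) : Prop :=
  L.coeff 0 = 1 ∧
    PowerSeries.X * PowerSeries.derivative ℚ (L : PowerSeries ℚ) =
      (L : PowerSeries ℚ) * traces p f h

/-- The order of vanishing of `L` at `T = 1 / q` is `ρ`, and `α` is the leading coefficient: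
`L = (1 - q T)^ρ M` with `M(1/q) = α ≠ 0`. -/
def HasOrder (q : ℕ) (L : ℚ[X]) (ρ : ℕ) (α : ℚ) : Prop :=
  ∃ M : ℚ[X], L = (1 - C (q : ℚ) * X) ^ ρ * M ∧ M.eval (1 / (q : ℚ)) = α ∧ α ≠ 0

section lemmas

open Pool.Agent.N867.AS Pool.Agent.N867.AS.Tow Pool.Agent.N867.AS.Lau Pool.Agent.U407
  UniqueFactorizationMonoid

variable {k : Type} [Field k]

theorem coeff_poly {a b : ℕ} {D : Finset (ℕ × ℕ)} (m : Member k b D) (i : ℕ) :
    (poly a m).coeff i = (if i = 0 then C (m.1.1 : k) * residue m else 0) +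
      (if a = i then C (m.1.2 : k) else 0) +
      ∑ d : D, if d.1.1 = i then monomial d.1.2 (m.2.2 d) else 0 := by
  unfold poly
  rw [coeff_add, coeff_add, coeff_C, coeff_monomial, finsetSum_coeff]
  congr 1
  exact Finset.sum_congr rfl fun d _ => coeff_monomial

theorem poly_wt {a b : ℕ} {D : Finset (ℕ × ℕ)}
    (hD : ∀ d ∈ D, 1 ≤ d.1 ∧ b * d.1 + a * d.2 < a * b)
    (m : Member k b D) (i j : ℕ) (h : ((poly a m).coeff i).coeff j ≠ 0) :
    b * i + a * j ≤ a * b := by
  rw [coeff_poly, coeff_add, coeff_add, finsetSum_coeff] at h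
  by_cases h1 : (∑ d : D, (if d.1.1 = i then monomial d.1.2 (m.2.2 d) else 0 : k[X]).coeff j) = 0
  · rw [h1, add_zero] at h
    by_cases h2 : (if a = i then C (m.1.2 : k) else 0 : k[X]).coeff j = 0
    · rw [h2, add_zero] at h
      split_ifs at h with h3
      · have h4 := le_natDegree_of_ne_zero h
        have h5 : (C (m.1.1 : k) * residue m).natDegree = b := by
          rw [natDegree_C_mul m.1.1.ne_zero]
          exact PF.mon_natDegree _
        rw [h5] at h4
        rw [h3, mul_zero, zero_add]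
        exact Nat.mul_le_mul_left _ h4
      · rw [coeff_zero] at h
        exact absurd rfl h
    · split_ifs at h2 with h3
      · rw [coeff_C] at h2
        split_ifs at h2 with h4
        · rw [h4, ← h3, mul_zero, add_zero, mul_comm]
        · exact absurd rfl h2
      · rw [coeff_zero] at h2
        exact absurd rfl h2
  · obtain ⟨d, -, hd⟩ := Finset.exists_ne_zero_of_sum_ne_zero h1
    split_ifs at hd with h3
    · rw [coeff_monomial] at hd
      split_ifs at hd with h4
      · rw [← h3, ← h4]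
        exact (hD d.1 d.2).2.le
      · exact absurd rfl hd
    · rw [coeff_zero] at hd
      exact absurd rfl hd

theorem poly_corner {a b : ℕ} (ha : 2 ≤ a) {D : Finset (ℕ × ℕ)}
    (hD : ∀ d ∈ D, 1 ≤ d.1 ∧ b * d.1 + a * d.2 < a * b) (m : Member k b D) :
    ((poly a m).coeff a).coeff 0 ≠ 0 := by
  rw [coeff_poly, if_neg (by omega), if_pos rfl, zero_add, Finset.sum_eq_zero, add_zero,
    coeff_C_zero]
  · exact m.1.2.ne_zero
  · intro d _
    refine if_neg fun h => ?_
    have h1 := (hD d.1 d.2).2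
    rw [h, mul_comm b a] at h1
    omega

theorem poly_top {a b : ℕ} (ha : 2 ≤ a) {D : Finset (ℕ × ℕ)}
    (hD : ∀ d ∈ D, 1 ≤ d.1 ∧ b * d.1 + a * d.2 < a * b) (m : Member k b D) :
    (poly a m).coeff 0 = C (m.1.1 : k) * residue m := by
  rw [coeff_poly, if_pos rfl, if_neg (by omega), add_zero, Finset.sum_eq_zero, add_zero]
  intro d _
  refine if_neg fun h => ?_
  have h1 := (hD d.1 d.2).1
  omega

theorem points_eq (p : ℕ) {r : ℕ} (f : k[X][X]) (h : Fin r → k[X]) (Q : ℕ) :
    points p f h Q = NDL p (fun _ : Fin 1 => f) h Q := by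
  unfold points NDL
  refine Nat.card_congr
    { toFun := fun v => ⟨(v.1.1, v.1.2.1, fun _ => v.1.2.2.1, v.1.2.2.2),
        v.2.1, v.2.2.1, v.2.2.2.1, fun _ => v.2.2.2.2.1, v.2.2.2.2.2.1,
        fun _ => v.2.2.2.2.2.2.1, v.2.2.2.2.2.2.2⟩
      invFun := fun v => ⟨(v.1.1, v.1.2.1, v.1.2.2.1 0, v.1.2.2.2),
        v.2.1, v.2.2.1, v.2.2.2.1, v.2.2.2.2.1 0, v.2.2.2.2.2.1, v.2.2.2.2.2.2.1 0,
        v.2.2.2.2.2.2.2⟩
      left_inv := fun v => rfl
      right_inv := fun v => ?_ }
  apply Subtype.ext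
  refine Prod.ext rfl (Prod.ext rfl (Prod.ext ?_ rfl))
  funext j
  rw [Subsingleton.elim j 0]

variable [Fintype k]

theorem squarefree_map {k' : Type} [Field k'] [Fintype k'] [Algebra k k'] {Φ : k[X]}
    (h : Squarefree Φ) : Squarefree (Φ.map (algebraMap k k')) := by
  have h1 : Φ.Separable := PerfectField.separable_iff_squarefree.2 h
  exact (h1.map (f := algebraMap k k')).squarefree

theorem coeff_baseChange {k' : Type} [Field k'] [Algebra k k'] (f : k[X][X]) (i : ℕ) :
    (baseChange k' f).coeff i = (f.coeff i).map (algebraMap k k') := by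
  unfold baseChange
  rw [coeff_map, coe_mapRingHom]

theorem pointwise (p : ℕ) (hp : p.Prime) [CharP k p] (s : ℕ) (hs : Fintype.card k = p ^ s)
    (a b : ℕ) (ha : 2 ≤ a) (hb : 1 ≤ b) (hab : a.Coprime b) (hMp : b * (a - 1) ∣ p - 1)
    (D : Finset (ℕ × ℕ)) (hD : ∀ d ∈ D, 1 ≤ d.1 ∧ b * d.1 + a * d.2 < a * b) (m : Member k b D)
    (hm : Squarefree (residue m)) (k' : Type) [Field k'] [Fintype k'] [Algebra k k'] (r : ℕ)
    (h : Fin r → k'[X]) (hh : ∀ l, a * (h l).natDegree ≤ b * (a - 1))
    (L : ℚ[X]) (hL : IsLFunction p (baseChange k' (poly a m)) h L) (ρ : ℕ) (α : ℚ)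
    (hρ : HasOrder (Fintype.card k') L ρ α) :
    ρ ≤ p ^ r * (p - 1) * (growth (Module.finrank k k') (residue m) - 1) ∧
      ((padicValRat p α : ℚ) =
        -((Module.finrank k k' * s * (p ^ r * (p - 1)) : ℕ) : ℚ) * hodge a b ↔
        ρ = p ^ r * (p - 1) * (growth (Module.finrank k k') (residue m) - 1)) := by
  have : CharP k' p := charP_of_injective_algebraMap (algebraMap k k').injective p
  have hinj : Function.Injective (algebraMap k k') := (algebraMap k k').injective
  have hs' : Fintype.card k' = p ^ (Module.finrank k k' * s) := by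
    rw [Module.card_eq_pow_finrank (K := k) (V := k'), hs, ← pow_mul, mul_comm]
  obtain ⟨M, hLM, hMα, hα⟩ := hρ
  have hL2 := hL.2
  unfold traces at hL2
  simp only [points_eq] at hL2
  have hM : M.eval (1 / (Fintype.card k' : ℚ)) ≠ 0 := by
    rw [hMα]
    exact hα
  have hmon : (residue m).Monic := PF.mon_monic m.2.1
  have hdeg : (residue m).natDegree = b := PF.mon_natDegree m.2.1
  obtain ⟨h1, -, h3⟩ := PF.onePole p hp (κ := k') (Module.finrank k k' * s) hs' r a b ha hb hab hMp
    (algebraMap k k' m.1.1) ((map_ne_zero_iff _ hinj).2 m.1.1.ne_zero)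
    ((residue m).map (algebraMap k k')) (hmon.map _)
    (by rw [natDegree_map, hdeg]) (squarefree_map hm)
    (baseChange k' (poly a m))
    (fun i j hij => by
      rw [coeff_baseChange, coeff_map] at hij
      exact poly_wt hD m i j fun h0 => hij (by rw [h0, map_zero]))
    (by
      rw [coeff_baseChange, coeff_map]
      exact (map_ne_zero_iff _ hinj).2 (poly_corner ha hD m))
    (by
      rw [coeff_baseChange, poly_top ha hD m, Polynomial.map_mul, Polynomial.map_C])
    h hh L hL.1 hL2 ρ M hLM hM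
  rw [CE.card_factors_map hmon.ne_zero, hMα] at h3
  rw [CE.card_factors_map hmon.ne_zero] at h1
  exact ⟨h1, h3⟩

theorem growth_pos {b : ℕ} (hb : 1 ≤ b) {D : Finset (ℕ × ℕ)} (m : Member k b D) {n : ℕ}
    (hn : 0 < n) : 1 ≤ growth n (residue m) := by
  have hmon : (residue m).Monic := PF.mon_monic m.2.1
  have hdeg : (residue m).natDegree = b := PF.mon_natDegree m.2.1
  by_contra h11
  have h0 : growth n (residue m) = 0 := by omega
  unfold growth at h0
  rw [Multiset.sum_eq_zero_iff] at h0
  have h12 : factors (residue m) = 0 := by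
    rw [Multiset.eq_zero_iff_forall_notMem]
    intro P hP
    have h2 := h0 _ (Multiset.mem_map_of_mem (fun P : k[X] => Nat.gcd n P.natDegree) hP)
    exact (Nat.gcd_pos_of_pos_left _ hn).ne' h2
  have h13 := factors_prod (a := residue m) hmon.ne_zero
  rw [h12, Multiset.prod_zero] at h13
  have h14 := natDegree_eq_of_degree_eq (degree_eq_degree_of_associated h13)
  rw [natDegree_one, hdeg] at h14
  omega

theorem growth_cast (n : ℕ) (Φ : k[X]) : (growth n Φ : ℚ) =
    ((factors Φ).map fun P => ((Nat.gcd n P.natDegree : ℕ) : ℚ)).sum := by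
  unfold growth
  rw [Nat.cast_multiset_sum, Multiset.map_map]
  rfl

theorem growth_irreducible {n : ℕ} {Φ : k[X]} (h : Irreducible Φ) :
    growth n Φ = Nat.gcd n Φ.natDegree := by
  unfold growth
  obtain ⟨P, hP, hPa⟩ : ∃ P, factors Φ = {P} ∧ Associated P Φ := by
    have h1 := LF.card_factors_eq_one h
    obtain ⟨P, hP⟩ := Multiset.card_eq_one.1 h1
    refine ⟨P, hP, ?_⟩
    have h2 := factors_prod h.ne_zero
    rwa [hP, Multiset.prod_singleton] at h2
  rw [hP, Multiset.map_singleton, Multiset.sum_singleton,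
    natDegree_eq_of_degree_eq (degree_eq_degree_of_associated hPa)]

end lemmas

/-- Let `k` be the field with `q = p^s` elements, `a ≥ 2` and `b ≥ 1` coprime, `b (a - 1)` a divisor
of `p - 1`, and `D` a finite set of exponents with `i ≥ 1` and `b i + a j < a b`. For a member
`m = (u, w, Φ, φ)` of the family, a finite extension `k'` of `k` with `Q = q^n` elements and
polynomials `h_1, …, h_r` over `k'` with `a deg h_l ≤ b (a - 1)` let `L` be the `L`-function (without
the Euler factors at infinity) of the Jacobian of `(y^p - y) x = f(x, t)` over the function field `F`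
of the curve `z_l^p - z_l = h_l(t)` over `k'`. Then:

(1) if `Φ` is squarefree, then the order `ρ` of the zero `T = 1 / Q` of `L` is at most
`p^r (p - 1) (∑ gcd(n, deg P) - 1)`, the sum over the irreducible factors of `Φ`, with equality if and
only if the `p`-adic valuation of the leading coefficient is `-n s p^r (p - 1) hodge`;

(2) for all `n ≥ 1` and `λ > 0`, for a proportion of at least `1 - V_n / λ² - 2 / q` of the members
`ρ ≤ p^r (p - 1) (E_n + λ - 1)` for all `k'` of degree `n`, all `r` and all `h_1, …, h_r`;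

(3) if `q > 2`, then for each `k'`, of degree `n`, the average of `ρ` over the members with squarefree
`Φ`, where the `h_l` may depend on the member, is at most `p^r (p - 1) (E_n / (1 - 2 / q) - 1)`;

(4) for a proportion of at least `1 / b - 1 / q` of the members `L(1/Q) ≠ 0` and
`v_p(L(1/Q)) = -n s p^r (p - 1) hodge` for all `k'` of degree `n` prime to `b`, all `r` and all
`h_1, …, h_r`. -/
theorem result (p : ℕ) (hp : p.Prime) (k : Type) [Field k] [Fintype k] [CharP k p] (s : ℕ)
    (hs : Fintype.card k = p ^ s) (a b : ℕ) (ha : 2 ≤ a) (hb : 1 ≤ b) (hab : a.Coprime b)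
    (hMp : b * (a - 1) ∣ p - 1) (D : Finset (ℕ × ℕ))
    (hD : ∀ d ∈ D, 1 ≤ d.1 ∧ b * d.1 + a * d.2 < a * b) :
    (∀ m : Member k b D, Squarefree (residue m) →
      ∀ (k' : Type) [Field k'] [Fintype k'] [Algebra k k'] (r : ℕ) (h : Fin r → k'[X]) (L : ℚ[X])
        (ρ : ℕ) (α : ℚ), (∀ l, a * (h l).natDegree ≤ b * (a - 1)) →
        IsLFunction p (baseChange k' (poly a m)) h L → HasOrder (Fintype.card k') L ρ α →
          ρ ≤ p ^ r * (p - 1) * (growth (Module.finrank k k') (residue m) - 1) ∧
          ((padicValRat p α : ℚ) =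
            -((Module.finrank k k' * s * (p ^ r * (p - 1)) : ℕ) : ℚ) * hodge a b ↔
            ρ = p ^ r * (p - 1) * (growth (Module.finrank k k') (residue m) - 1))) ∧
    (∀ n : ℕ, 0 < n → ∀ t : ℚ, 0 < t →
      1 - varGrowth n b / t ^ 2 - 2 / Fintype.card k ≤
        proportion (fun m : Member k b D =>
          ∀ (k' : Type) [Field k'] [Fintype k'] [Algebra k k'] (r : ℕ) (h : Fin r → k'[X])
            (L : ℚ[X]) (ρ : ℕ) (α : ℚ), Module.finrank k k' = n →
            (∀ l, a * (h l).natDegree ≤ b * (a - 1)) →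
            IsLFunction p (baseChange k' (poly a m)) h L → HasOrder (Fintype.card k') L ρ α →
              (ρ : ℚ) ≤ ((p ^ r * (p - 1) : ℕ) : ℚ) * (meanGrowth n b + t - 1))) ∧
    (2 < Fintype.card k →
      ∀ (k' : Type) [Field k'] [Fintype k'] [Algebra k k'] (r : ℕ)
        (h : Member k b D → Fin r → k'[X]) (L : Member k b D → ℚ[X]) (ρ : Member k b D → ℕ)
        (α : Member k b D → ℚ), (∀ m l, a * (h m l).natDegree ≤ b * (a - 1)) →
        (∀ m, Squarefree (residue m) → IsLFunction p (baseChange k' (poly a m)) (h m) (L m) ∧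
          HasOrder (Fintype.card k') (L m) (ρ m) (α m)) →
        average (fun m => Squarefree (residue m)) (fun m => (ρ m : ℚ)) ≤
          ((p ^ r * (p - 1) : ℕ) : ℚ) *
            (meanGrowth (Module.finrank k k') b / (1 - 2 / (Fintype.card k : ℚ)) - 1)) ∧
    1 / (b : ℚ) - 1 / Fintype.card k ≤
      proportion (fun m : Member k b D =>
        ∀ (k' : Type) [Field k'] [Fintype k'] [Algebra k k'] (r : ℕ) (h : Fin r → k'[X])
          (L : ℚ[X]), (Module.finrank k k').Coprime b →
          (∀ l, a * (h l).natDegree ≤ b * (a - 1)) → IsLFunction p (baseChange k' (poly a m)) h L →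
            L.eval (1 / (Fintype.card k' : ℚ)) ≠ 0 ∧
            (padicValRat p (L.eval (1 / (Fintype.card k' : ℚ))) : ℚ) =
              -((Module.finrank k k' * s * (p ^ r * (p - 1)) : ℕ) : ℚ) * hodge a b) := by
  have hpw := fun (m : Member k b D) (hm : Squarefree (residue m)) (k' : Type) [Field k']
      [Fintype k'] [Algebra k k'] (r : ℕ) (h : Fin r → k'[X])
      (hh : ∀ l, a * (h l).natDegree ≤ b * (a - 1)) (L : ℚ[X])
      (hL : IsLFunction p (baseChange k' (poly a m)) h L) (ρ : ℕ) (α : ℚ) hρ =>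
    pointwise p hp s hs a b ha hb hab hMp D hD m hm k' r h hh L hL ρ α hρ
  have hcast : ∀ (n K : ℕ) (_ : 0 < n) (m : Member k b D) (ρ : ℕ),
      ρ ≤ K * (growth n (residue m) - 1) →
      (ρ : ℚ) ≤ (K : ℚ) * ((growth n (residue m) : ℚ) - 1) := by
    intro n K hn m ρ h
    have h1 := growth_pos hb m hn
    have h2 : (ρ : ℚ) ≤ ((K * (growth n (residue m) - 1) : ℕ) : ℚ) := by exact_mod_cast h
    rw [Nat.cast_mul, Nat.cast_sub h1, Nat.cast_one] at h2
    exact h2
  have hq := Pool.Agent.U407.PF.q_pos (κ := k)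
  have hcard : (Fintype.card k : ℚ) = Nat.card k := by rw [Nat.card_eq_fintype_card]
  refine ⟨fun m hm k' _ _ _ r h L ρ α hh hL hρ => hpw m hm k' r h hh L hL ρ α hρ,
    fun n hn t ht => ?_, fun h2q k' _ _ _ r h L ρ α hh hL => ?_, ?_⟩
  · have h0 := Pool.Agent.U407.CE.card_feww (κ := k) (fun d => (Nat.gcd n d : ℚ))
      (fun d => Nat.cast_nonneg _) hb ht
    rw [hcard]
    refine h0.trans ?_
    rw [← Pool.Agent.U407.PF.proportion_mid (A := kˣ × kˣ) (B := D → k)]
    refine Pool.Agent.U407.PF.proportion_le fun m hm k' _ _ _ r h L ρ α hn' hh hL hρ => ?_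
    have h1 := (hpw m hm.1 k' r h hh L hL ρ α hρ).1
    rw [hn'] at h1
    refine (hcast n _ hn m ρ h1).trans (mul_le_mul_of_nonneg_left ?_ (Nat.cast_nonneg _))
    have h2 := hm.2
    have h3 : (growth n (residue m) : ℚ) =
        ((UniqueFactorizationMonoid.factors (Pool.Agent.U407.PF.mon m.2.1)).map fun P =>
          (Nat.gcd n P.natDegree : ℚ)).sum := growth_cast n _
    rw [h3]
    unfold meanGrowth
    linarith
  · have hn : 0 < Module.finrank k k' := Module.finrank_pos
    have hc : 0 < 1 - 2 / (Nat.card k : ℚ) := by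
      rw [sub_pos, div_lt_one hq, ← hcard]
      exact_mod_cast h2q
    rw [hcard]
    refine Pool.Agent.U407.PF.average_mid (A := kˣ × kˣ) (B := D → k)
      (ρ := fun m => (ρ m : ℚ)) (K := ((p ^ r * (p - 1) : ℕ) : ℚ))
      (fun α : Fin b → k => Squarefree (Pool.Agent.U407.PF.mon α)) (pow_pos hq b) hc
      (Finset.sum_nonneg fun i _ => by positivity) (Pool.Agent.U407.PF.card_sqf hb)
      (fun α : Fin b → k => ((UniqueFactorizationMonoid.factors
        (Pool.Agent.U407.PF.mon α)).map fun P =>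
          (Nat.gcd (Module.finrank k k') P.natDegree : ℚ)).sum)
      (Pool.Agent.U407.CE.sum_sqfw (fun d => (Nat.gcd (Module.finrank k k') d : ℚ))
        (fun d => Nat.cast_nonneg _) b) (Nat.cast_nonneg _) fun m hm => ?_
    obtain ⟨hL1, hρ⟩ := hL m hm
    have h4 := hcast _ _ hn m (ρ m) (hpw m hm k' r (h m) (hh m) (L m) hL1 (ρ m) (α m) hρ).1
    rw [growth_cast] at h4
    exact h4
  · rw [hcard]
    refine (Pool.Agent.U407.PF.card_irr_ge (κ := k) hb).trans ?_
    rw [← Pool.Agent.U407.PF.proportion_mid (A := kˣ × kˣ) (B := D → k)]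
    refine Pool.Agent.U407.PF.proportion_le fun m hm k' _ _ _ r h L hn hh hL => ?_
    have hirr : Irreducible (residue m) := hm
    have hL0 : L ≠ 0 := by
      intro h0
      have h1 := hL.1
      rw [h0, coeff_zero] at h1
      exact zero_ne_one h1
    have hq' : (Fintype.card k' : ℚ) ≠ 0 := by
      have := Fintype.card_ne_zero (α := k')
      exact_mod_cast this
    obtain ⟨ρ, M, hLM, hMe⟩ := Pool.Agent.U407.LF.exists_order hq' hL0
    obtain ⟨h5, h6⟩ := hpw m hirr.squarefree k' r h hh L hL ρ _ ⟨M, hLM, rfl, hMe⟩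
    have hdeg : (residue m).natDegree = b := Pool.Agent.U407.PF.mon_natDegree m.2.1
    rw [growth_irreducible hirr, hdeg, Nat.Coprime.gcd_eq_one hn, Nat.sub_self, mul_zero] at h5 h6
    have hρ0 : ρ = 0 := Nat.le_zero.1 h5
    subst hρ0
    rw [pow_zero, one_mul] at hLM
    rw [hLM]
    exact ⟨hMe, h6.2 rfl⟩

end Pool.Agent.Results.MP_72e2e6_nt.ConstantExtensionStatistics
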