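import Pool.Agent.U10.Sha.Fam

/-!
# One function field controls the infinite part of all the groups `Ш(A/L)`, if it is bounded

Let `A` be an abelian variety, or any commutative group scheme, over a global function field `k` (of
any characteristic; in fact `k` can be any field), let `ℓ` be any prime number (the characteristic is
allowed) and let `L` run over the finite separable extensions of `k` in a separable closure.  The
corank `c(L)` of `Ш(A/L)[ℓ^∞]` is the number of copies of `ℚ_ℓ/ℤ_ℓ` in it; for global function fields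
and abelian varieties it does not depend on `ℓ` and it is zero if and only if `Ш(A/L)` is finite (Tate,
Milne, Kato, Trihan).  We show:

1. `c(L) + c(L') ≤ c(L L') + c(L ∩ L')` for all `L`, `L'`, without any assumption.
2. Let `Ω` be any separable extension of `k`, finite or infinite.  The coranks `c(L)`, `L ⊆ Ω`, are
   bounded if and only if there is a finite extension `L₁ ⊆ Ω` with finite corank that controls them:
   `c(L) = c(L ∩ L₁)` for all `L ⊆ Ω`.
3. In this case there is a smallest controlling field `L₀`.  If `Ω` is Galois over `k`, so is `L₀`, and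
   the Galois group of `L₀` over `k` is isomorphic to a group of `c × c` matrices over `ℤ/q`, where `c` is
   the corank of `L₀`, the largest of the coranks, and `q = ℓ` (`q = 4` if `ℓ = 2`).  So the degree of
   `L₀` divides the order of `GL_c(ℤ/q)`.
4. `c(L) = c(k)` for all `L ⊆ Ω` of degree prime to the degree of `L₀`, in the Galois case in particular for
   all `L` of degree prime to the order of `GL_c(ℤ/q)`.  In particular, if the coranks are bounded then
   the finiteness of `Ш(A/k)` implies the one of `Ш(A/L)` for all these `L`.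

Proof.  If `F` is a Galois extension of `k` which contains `L`, then the restriction identifies the
rational Tate module of `Ш(A/L)` with the invariants of the one of `Ш(A/F)` under `Gal(F/L)`
(corestriction; the corestriction of a locally trivial class becomes locally trivial after
multiplication with the degree).  The invariants of `Gal(F/L ∩ L')` are the common invariants of
`Gal(F/L)` and `Gal(F/L')`; this gives (1).  The fields of maximal corank are closed under
intersections, which gives (2) and (3).  The Galois group of the smallest one acts faithfully on the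
rational Tate module; and a finite group of matrices over `ℤ_ℓ` is isomorphic to its reduction modulo `q`.
-/

open Module

namespace Pool.Agent.Results.MP_72e2e6_nt.ControllingField

open Pool.Agent.U10.Sha

variable {k : Type} [Field k]

/-- The function `f` on `Gal(k^sep/L)` becomes a coboundary over the completion of `k` for the
valuation ring `V`.  For an embedding `ι` of `k^sep` in the separable closure of this completion the
pairs `(τ, σ)` with `τ ι = ι σ`, where `σ` fixes `L`, correspond to the automorphisms `τ` over the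
completion of `L` at the place given by `ι`. -/
def TrivialOver (A : GrpSch k) (L : Ext k) (f : GalL L → GPts A (Sep k)) (V : ValuationSubring k) :
    Prop :=
  ∀ ι : LocEmb V, ∃ P : GPts A (Sep (Cpl V)), ∀ (τ : LocAut V) (σ : GalL L),
    Compatible ι τ σ → locPt A ι (f σ) = locAct A τ P - P

/-- `f` is a continuous cocycle of `Gal(k^sep/L)` with values in `A(k^sep)` which is a coboundary at all
places. -/
def IsShaCocycle (A : GrpSch k) (L : Ext k) (f : GalL L → GPts A (Sep k)) : Prop :=
  (∀ σ τ : GalL L, f (σ * τ) = f σ + ptAct A σ (f τ)) ∧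
  IsLocallyConstant f ∧ ∀ V : ValuationSubring k, V ≠ ⊤ → TrivialOver A L f V

variable (A : GrpSch k) (L : Ext k)

theorem isSha_iff (f : L.fixingSubgroup → GPts A (Sep k)) :
    IsShaCocycle A L f ↔ f ∈ (vSha (gFun A)).Z L.fixingSubgroup :=
  ⟨fun h => ⟨h.1, h.2.1, fun V => h.2.2 V.1 V.2⟩,
    fun h => ⟨h.1, h.2.1, fun V hV => h.2.2 ⟨V, hV⟩⟩⟩

variable {A L} in
theorem isSha_add {f g : GalL L → GPts A (Sep k)}
    (hf : IsShaCocycle A L f) (hg : IsShaCocycle A L g) : IsShaCocycle A L (f + g) :=
  (isSha_iff A L _).2 (add_mem ((isSha_iff A L _).1 hf) ((isSha_iff A L _).1 hg))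

theorem isSha_zero : IsShaCocycle A L 0 := (isSha_iff A L _).2 (zero_mem _)

variable {A L} in
theorem isSha_neg {f : GalL L → GPts A (Sep k)}
    (hf : IsShaCocycle A L f) : IsShaCocycle A L (-f) :=
  (isSha_iff A L _).2 (neg_mem ((isSha_iff A L _).1 hf))

/-- The group of these cocycles. -/
noncomputable def cocycles : AddSubgroup (GalL L → GPts A (Sep k)) where
  carrier := {f | IsShaCocycle A L f}
  add_mem' := isSha_add
  zero_mem' := isSha_zero A L
  neg_mem' := isSha_neg

/-- `f` is a coboundary. -/
def IsCoboundary (f : GalL L → GPts A (Sep k)) : Prop :=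
  ∃ Q : GPts A (Sep k), ∀ σ : GalL L, f σ = ptAct A σ Q - Q

/-- The group (generated by the set) of the coboundaries. -/
noncomputable def coboundaries : AddSubgroup (GalL L → GPts A (Sep k)) :=
  AddSubgroup.closure {f | IsCoboundary A L f}

/-- The corank of `Ш(A/L)[ℓ^∞]`, where `Ш(A/L)` is the group of the cocycles modulo the group of the
coboundaries. -/
noncomputable def corank (ℓ : ℕ) [Fact ℓ.Prime] : Cardinal :=
  crk ℓ (cocycles A L) (coboundaries A L)

theorem corank_eq (ℓ : ℕ) [Fact ℓ.Prime] : corank A L ℓ = (vSha (gFun A)).crF ℓ L := by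
  unfold corank
  have h1 : cocycles A L = (vSha (gFun A)).Z L.fixingSubgroup := AddSubgroup.ext (isSha_iff A L)
  have h2 : coboundaries A L = Bd (PF.act (gFun A)) L.fixingSubgroup :=
    AddSubgroup.closure_eq (Bd (PF.act (gFun A)) L.fixingSubgroup)
  rw [h1, h2]
  rfl

/-- The field `L` is a finite extension of `k`. -/
def IsFin (L : Ext k) : Prop := FiniteDimensional k L

/-- The degree of `L` over `k`. -/
noncomputable def deg (L : Ext k) : ℕ := finrank k L

/-- The field `L₁` controls the coranks over the finite extensions of `k` in `Ω`. -/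
def Controls (ℓ : ℕ) [Fact ℓ.Prime] (Ω L₁ : Ext k) : Prop :=
  ∀ L ≤ Ω, IsFin L → corank A L ℓ = corank A (L ⊓ L₁) ℓ

/-- The coranks over the finite extensions of `k` in `Ω` are bounded. -/
def Bounded (ℓ : ℕ) [Fact ℓ.Prime] (Ω : Ext k) : Prop :=
  ∃ m : ℕ, ∀ L ≤ Ω, IsFin L → corank A L ℓ ≤ m

/-- The Galois group of `L` over `k` embeds into the group of `c × c` matrices over `ℤ/q`. -/
def GroupEmbeds (L : Ext k) (c q : ℕ) : Prop := ∃ φ : GalG L →* Mats c q, Function.Injective φ

/-- `ℓ`, and `4` if `ℓ = 2`. -/
def modulus (ℓ : ℕ) : ℕ := ℓ ^ (if ℓ = 2 then 2 else 1)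

theorem result (k : Type) [Field k] (A : GrpSch k) (ℓ : ℕ) [Fact ℓ.Prime] :
    (∀ L L' : Ext k, IsFin L → IsFin L' →
      corank A L ℓ + corank A L' ℓ ≤ corank A (L ⊔ L') ℓ + corank A (L ⊓ L') ℓ) ∧
    ∀ Ω : Ext k,
      (Bounded A ℓ Ω ↔
        ∃ L₁ ≤ Ω, IsFin L₁ ∧ corank A L₁ ℓ < Cardinal.aleph0 ∧ Controls A ℓ Ω L₁) ∧
      (Bounded A ℓ Ω →
        ∃ L₀ ≤ Ω, IsFin L₀ ∧ Controls A ℓ Ω L₀ ∧
          (∀ L₁ ≤ Ω, IsFin L₁ → Controls A ℓ Ω L₁ → L₀ ≤ L₁) ∧
          (∀ L ≤ Ω, IsFin L → Nat.Coprime (deg L) (deg L₀) → corank A L ℓ = corank A ⊥ ℓ) ∧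
          (IsGalois k Ω → IsGalois k L₀ ∧
            deg L₀ ∣ Nat.card (Mats (corank A L₀ ℓ).toNat (modulus ℓ)) ∧
            GroupEmbeds L₀ (corank A L₀ ℓ).toNat (modulus ℓ))) := by
  have hc : ∀ L, corank A L ℓ = (vSha (gFun A)).crF ℓ L := fun L => corank_eq A L ℓ
  have hC : ∀ Ω L₁, Controls A ℓ Ω L₁ ↔ (vSha (gFun A)).Ctl ℓ Ω L₁ := by
    intro Ω L₁
    simp only [Controls, IsFin, LocData.Ctl, hc]
  simp only [hC, Bounded, IsFin, deg, hc]
  refine ⟨fun L L' h h' => crF_super (vSha (gFun A)) ℓ L L',
    fun Ω => ⟨bounded_iff (vSha (gFun A)) ℓ Ω, ?_⟩⟩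
  rintro ⟨m, hm⟩
  obtain ⟨L₀, h1, h2, h3, h4, h5, h6⟩ := smallest (vSha (gFun A)) ℓ Ω m hm
  exact ⟨L₀, h1, h2, h3, h4, h5, h6⟩

end Pool.Agent.Results.MP_72e2e6_nt.ControllingField
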