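import Pool.Agent.U554.TD.Div

/-!
# Finiteness of Tate-Shafarevich groups over function fields and cubics with four variables in one block

Let `k` be a finite field, `ℓ` a prime different from the characteristic, `F` the geometric Frobenius.

* `AV` is the set of the pairs `p = (L, A)`, `L` a global function field which contains `k` and `A` an
  abelian variety over `L`, and `Sha p` is the Tate-Shafarevich group of `A` over `L`. (For `K ⊆ L` and an
  abelian variety `A` over `K`, the group `Sha(A / L)` of the problem is the one of the base change of `A` to `L`.)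
* `𝓡` is the category of vector spaces over `ℚ_ℓ` and `one = ℚ_ℓ`.
* `O b m X`, for the separated schemes `X` of finite type over `k`, is the regulator
  `c : CH_b(X, m) ⊗ ℚ_ℓ → H_{m + 2 b}(X̄, ℚ_ℓ(b))^{(F - 1)^∞ = 0}` (Borel-Moore homology, the generalised
  eigenspace of `F` of the eigenvalue `1`, an exact functor). If `X` is smooth of pure dimension `n`, this is
  `CH^i(X, m) ⊗ ℚ_ℓ → H^{2 i - m}(X̄, ℚ_ℓ(i))`, `i = n - b`. For a smooth projective surface `V` the map
  `O 1 0 V` is onto if and only if the Tate conjecture holds for the divisors on `V`.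
* `ArtinTate Sha O`: the theorems of Artin, Tate, Milne, Grothendieck, Kato and Trihan.

Let `T` be a trilinear form in three blocks `x`, `y`, `z` of `a₁`, `a₂`, `a₃` variables.

* `bilS T` is the closed subscheme `Z_T` of `𝔸^(a₂ + a₃)` given by the `a₁` bilinear equations
  `∂T/∂x_i (y, z) = 0`;
* `hypS T` is the smooth affine cubic hypersurface `Y_T : T(x, y, z) = 1` of dimension
  `n = a₁ + a₂ + a₃ - 1`; `O (n - j) 1 (hypS T)` is the regulator
  `CH^j(Y_T, 1) ⊗ ℚ_ℓ → H^{2 j - 1}(Ȳ_T, ℚ_ℓ(j))^{(F - 1)^∞ = 0}`.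

The known facts which are used are in `ArtinTate`, `IsClassTheory` and `QuarticSurfaces`.
-/

set_option autoImplicit false

open CategoryTheory AlgebraicGeometry MvPolynomial Pool.Agent.Y116.UV Pool.Agent.U554.TW Pool.Agent.U554.TD
  Pool.Agent.U483.GU

universe w v u

namespace Pool.Agent.Results.MP_72e2e6_nt.CubicsWithFourVariables

/-- **The theorems of Artin, Tate, Milne, Grothendieck, Kato and Trihan** over the finite field `k`:

* `surface`: for each abelian variety `A` over a function field `L` there is a smooth projective surface `V` over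
  `k` such that the Tate conjecture for the divisors on `V` implies that the Tate-Shafarevich group of `A` is
  finite (`A` is up to isogeny a factor of the Jacobian of a curve over `L`, and `V` is a model of the curve);
* `jacobian`: for each smooth projective `V` of dimension at most `2` there are finitely many abelian varieties
  over function fields such that the finiteness of their Tate-Shafarevich groups implies the Tate conjecture for
  the divisors on `V` (Lefschetz pencils over a finite extension of `k`). -/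
structure ArtinTate {𝓡 : Type u} [Category.{v} 𝓡] [Abelian 𝓡] {one : 𝓡} {k : Type} [Field k]
    {AV : Type} (Sha : AV → Type) (O : ℤ → ℤ → Sch k → CReg.{w} one) : Prop where
  surface : ∀ p : AV, ∃ V : Sch k, SmoothProjective V ∧ topologicalKrullDim V.left ≤ (2 : ℕ) ∧
    ((O 1 0 V).Onto → Finite (Sha p))
  jacobian : ∀ V : Sch k, SmoothProjective V → topologicalKrullDim V.left ≤ (2 : ℕ) →
    ∃ (n : ℕ) (p : Fin n → AV), (∀ i, Finite (Sha (p i))) → (O 1 0 V).Onto

/-- **Tate-Shafarevich groups over function fields and cubics.**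

(A) If two of the three blocks of `T` have at most `4` variables (the third one is arbitrary), or if one block
has at most `3` variables, then all classes on `Z_T` are algebraic, and
`CH^j(Y_T, 1) ⊗ ℚ_ℓ → H^{2 j - 1}(Ȳ_T, ℚ_ℓ(j))^{(F - 1)^∞ = 0}` is onto for all `j ≥ 1`.

(B) Let `s` be any number. The following are equivalent:

1. the Tate-Shafarevich group of every abelian variety over every global function field which contains `k` is
   finite;
2. all classes in `H_{2 b}(X)(-b)`, `b` arbitrary, are algebraic for all separated schemes `X` of finite type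
   of dimension at most `2`;
3. the same for all `Z_T` with a block of at most `4` variables, and for all closed subschemes of affine
   spaces which are given by equations with `t_1, …, t_c` terms, `∑ max(t_i - 2, 0) ≤ 2`;
4. `CH^j(Y_T, 1) ⊗ ℚ_ℓ → H^{2 j - 1}(Ȳ_T, ℚ_ℓ(j))^{(F - 1)^∞ = 0}` is onto for all `j ≥ 1` and all `T` with a
   block of at most `4` variables;
5. the same for all `T` with exactly `4` variables `y` and all `j ≥ 1` with `j ≥ s`. -/
theorem result {𝓡 : Type u} [Category.{v} 𝓡] [Abelian 𝓡] (one : 𝓡) {k : Type} [Field k] [Finite k]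
    {AV : Type} (Sha : AV → Type) (O : ℤ → ℤ → Sch k → CReg.{w} one) (hO : IsClassTheory O)
    (hS : ArtinTate Sha O) (hq : QuarticSurfaces O) :
    (∀ (a₁ a₂ a₃ : ℕ) (T : Fin a₁ → Fin a₂ → Fin a₃ → k),
      Block 3 a₁ a₂ a₃ ∨ TwoBlocks 4 4 a₁ a₂ a₃ →
      AllOnto O (bilS T) ∧ ∀ j : ℕ, 1 ≤ j → (O (a₁ + a₂ + a₃ - 1 - j) 1 (hypS T)).Onto) ∧
    ∀ s : ℕ, List.TFAE [
      ∀ p : AV, Finite (Sha p),
      ∀ X : Sch k, FT True X → topologicalKrullDim X.left ≤ (2 : ℕ) → AllOnto O X,
      (∀ (a₁ a₂ a₃ : ℕ) (T : Fin a₁ → Fin a₂ → Fin a₃ → k), Block 4 a₁ a₂ a₃ →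
        AllOnto O (bilS T)) ∧
      ∀ (n : ℕ) (G : Finset (MvPolynomial (Fin n) k)), ∑ g ∈ G, (g.support.card - 2) ≤ 2 →
        AllOnto O (aff k (MvPolynomial (Fin n) k ⧸ Ideal.span (G : Set (MvPolynomial (Fin n) k)))),
      ∀ (a₁ a₂ a₃ : ℕ) (T : Fin a₁ → Fin a₂ → Fin a₃ → k), Block 4 a₁ a₂ a₃ →
        ∀ j : ℕ, 1 ≤ j → (O (a₁ + a₂ + a₃ - 1 - j) 1 (hypS T)).Onto,
      ∀ (a₁ a₃ : ℕ) (T : Fin a₁ → Fin 4 → Fin a₃ → k), ∀ j : ℕ, s ≤ j → 1 ≤ j →
        (O (a₁ + 4 + a₃ - 1 - j) 1 (hypS T)).Onto] := by
  refine ⟨fun _ _ _ T ha => small_blocks hO hq T ha, fun s => ?_⟩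
  have h := surface_tfae hO s
  tfae_have 1 → 2 := by
    intro h1
    refine (h.out 0 1).mp fun V hV hdim => ?_
    obtain ⟨n, p, hp⟩ := hS.jacobian V hV hdim
    exact hp fun i => h1 _
  tfae_have 2 → 1 := by
    intro h1 p
    have h2 : ∀ V : Sch k, SmoothProjective V → topologicalKrullDim V.left ≤ (2 : ℕ) →
        (O 1 0 V).Onto := (h.out 0 1).mpr h1
    obtain ⟨V, hV, hdim, hp⟩ := hS.surface p
    exact hp (h2 V hV hdim)
  tfae_have 2 ↔ 3 := h.out 1 2
  tfae_have 3 ↔ 4 := h.out 2 3
  tfae_have 4 ↔ 5 := h.out 3 4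
  tfae_finish

end Pool.Agent.Results.MP_72e2e6_nt.CubicsWithFourVariables
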